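import Pool.Agent.H64.GW.Nil.Defs

/-!
# The group `G`, the lattice `Γ` and the quotient `V = Γ \ G`

`NG` is the manifold `ℝ⁶` with the group law `mul`, `Gam` the subgroup with carrier `Lat`, and
`V = Γ \ NG`.
-/

open scoped ContDiff
open MeasureTheory Topology Filter

namespace Pool.Agent.H61.GWNil

open Pool.Agent.H64.GW Pool.Agent.H64.GW.Nil

@[simp] theorem mul_0 (g h : G) : mul g h 0 = g 0 + h 0 := rfl
@[simp] theorem mul_1 (g h : G) : mul g h 1 = g 1 + h 1 := rfl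
@[simp] theorem mul_2 (g h : G) : mul g h 2 = g 2 + (h 2 - g 0 * h 1) := rfl
@[simp] theorem mul_3 (g h : G) : mul g h 3 = g 3 + (h 3 - g 0 * h 2 + g 0 ^ 2 / 2 * h 1) := rfl
@[simp] theorem mul_4 (g h : G) : mul g h 4 =
    g 4 + (h 4 - g 0 * h 3 + g 0 ^ 2 / 2 * h 2 - g 0 ^ 3 / 6 * h 1) := rfl
@[simp] theorem mul_5 (g h : G) : mul g h 5 =
    g 5 + (h 5 - g 0 * h 4 + g 0 ^ 2 / 2 * h 3 - g 0 ^ 3 / 6 * h 2 + g 0 ^ 4 / 24 * h 1) := rfl

theorem ext6 {g h : G} (h0 : g 0 = h 0) (h1 : g 1 = h 1) (h2 : g 2 = h 2) (h3 : g 3 = h 3)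
    (h4 : g 4 = h 4) (h5 : g 5 = h 5) : g = h := by
  funext i
  fin_cases i <;> assumption

/-- The inverse of an element of `G`. -/
noncomputable def inv (g : G) : G :=
  ![-g 0, -g 1, -(g 2 + g 0 * g 1),
    -(g 3 + g 0 * g 2 + g 0 ^ 2 / 2 * g 1),
    -(g 4 + g 0 * g 3 + g 0 ^ 2 / 2 * g 2 + g 0 ^ 3 / 6 * g 1),
    -(g 5 + g 0 * g 4 + g 0 ^ 2 / 2 * g 3 + g 0 ^ 3 / 6 * g 2 + g 0 ^ 4 / 24 * g 1)]

@[simp] theorem inv_0 (g : G) : inv g 0 = -g 0 := rfl
@[simp] theorem inv_1 (g : G) : inv g 1 = -g 1 := rfl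
@[simp] theorem inv_2 (g : G) : inv g 2 = -(g 2 + g 0 * g 1) := rfl
@[simp] theorem inv_3 (g : G) : inv g 3 = -(g 3 + g 0 * g 2 + g 0 ^ 2 / 2 * g 1) := rfl
@[simp] theorem inv_4 (g : G) : inv g 4 =
    -(g 4 + g 0 * g 3 + g 0 ^ 2 / 2 * g 2 + g 0 ^ 3 / 6 * g 1) := rfl
@[simp] theorem inv_5 (g : G) : inv g 5 =
    -(g 5 + g 0 * g 4 + g 0 ^ 2 / 2 * g 3 + g 0 ^ 3 / 6 * g 2 + g 0 ^ 4 / 24 * g 1) := rfl

theorem mul_assoc' (a b c : G) : mul (mul a b) c = mul a (mul b c) := by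
  apply ext6 <;> simp <;> ring

theorem zero_mul' (a : G) : mul 0 a = a := by
  apply ext6 <;> simp

theorem mul_zero' (a : G) : mul a 0 = a := by
  apply ext6 <;> simp

theorem inv_mul' (a : G) : mul (inv a) a = 0 := by
  apply ext6 <;> simp <;> ring

/-- The group `G`: the manifold `ℝ⁶` with the product `mul`. -/
def NG : Type := Fin 6 → ℝ

instance : TopologicalSpace NG := inferInstanceAs (TopologicalSpace (Fin 6 → ℝ))
instance : T2Space NG := inferInstanceAs (T2Space (Fin 6 → ℝ))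
instance : LocallyCompactSpace NG := inferInstanceAs (LocallyCompactSpace (Fin 6 → ℝ))
instance : SecondCountableTopology NG := inferInstanceAs (SecondCountableTopology (Fin 6 → ℝ))
instance : ContractibleSpace NG := inferInstanceAs (ContractibleSpace (Fin 6 → ℝ))

/-- The identity map from `ℝ⁶` to `NG`. -/
def toNG : G ≃ₜ NG := Homeomorph.refl _

noncomputable instance : Group NG where
  mul a b := mul a b
  one := (0 : G)
  inv a := inv a
  mul_assoc := mul_assoc'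
  one_mul := zero_mul'
  mul_one := mul_zero'
  inv_mul_cancel := inv_mul'

theorem mul_def (a b : NG) : a * b = mul a b := rfl
theorem one_def : (1 : NG) = (0 : G) := rfl
theorem inv_def (a : NG) : a⁻¹ = inv a := rfl

theorem continuous_mul' : Continuous fun p : G × G => mul p.1 p.2 := by
  apply continuous_pi
  intro i
  fin_cases i
  · change Continuous fun p : G × G => mul p.1 p.2 0
    simp only [mul_0]; fun_prop
  · change Continuous fun p : G × G => mul p.1 p.2 1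
    simp only [mul_1]; fun_prop
  · change Continuous fun p : G × G => mul p.1 p.2 2
    simp only [mul_2]; fun_prop
  · change Continuous fun p : G × G => mul p.1 p.2 3
    simp only [mul_3]; fun_prop
  · change Continuous fun p : G × G => mul p.1 p.2 4
    simp only [mul_4]; fun_prop
  · change Continuous fun p : G × G => mul p.1 p.2 5
    simp only [mul_5]; fun_prop

theorem continuous_inv' : Continuous inv := by
  apply continuous_pi
  intro i
  fin_cases i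
  · change Continuous fun p : G => inv p 0
    simp only [inv_0]; fun_prop
  · change Continuous fun p : G => inv p 1
    simp only [inv_1]; fun_prop
  · change Continuous fun p : G => inv p 2
    simp only [inv_2]; fun_prop
  · change Continuous fun p : G => inv p 3
    simp only [inv_3]; fun_prop
  · change Continuous fun p : G => inv p 4
    simp only [inv_4]; fun_prop
  · change Continuous fun p : G => inv p 5
    simp only [inv_5]; fun_prop

instance : IsTopologicalGroup NG where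
  continuous_mul := continuous_mul'
  continuous_inv := continuous_inv'

/-- Left multiplication is smooth on `ℝ⁶`. -/
theorem contDiff_mul (g : G) : ContDiff ℝ ∞ (mul g) := by
  rw [contDiff_pi]
  intro i
  fin_cases i
  · change ContDiff ℝ ∞ fun p : G => mul g p 0
    simp only [mul_0]; fun_prop
  · change ContDiff ℝ ∞ fun p : G => mul g p 1
    simp only [mul_1]; fun_prop
  · change ContDiff ℝ ∞ fun p : G => mul g p 2
    simp only [mul_2]; fun_prop
  · change ContDiff ℝ ∞ fun p : G => mul g p 3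
    simp only [mul_3]; fun_prop
  · change ContDiff ℝ ∞ fun p : G => mul g p 4
    simp only [mul_4]; fun_prop
  · change ContDiff ℝ ∞ fun p : G => mul g p 5
    simp only [mul_5]; fun_prop

/-- The group operations of `G` are smooth. -/
theorem contDiff_mul₂ : ContDiff ℝ ∞ fun p : G × G => mul p.1 p.2 := by
  rw [contDiff_pi]
  intro i
  fin_cases i
  · change ContDiff ℝ ∞ fun p : G × G => mul p.1 p.2 0
    simp only [mul_0]; fun_prop
  · change ContDiff ℝ ∞ fun p : G × G => mul p.1 p.2 1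
    simp only [mul_1]; fun_prop
  · change ContDiff ℝ ∞ fun p : G × G => mul p.1 p.2 2
    simp only [mul_2]; fun_prop
  · change ContDiff ℝ ∞ fun p : G × G => mul p.1 p.2 3
    simp only [mul_3]; fun_prop
  · change ContDiff ℝ ∞ fun p : G × G => mul p.1 p.2 4
    simp only [mul_4]; fun_prop
  · change ContDiff ℝ ∞ fun p : G × G => mul p.1 p.2 5
    simp only [mul_5]; fun_prop

theorem contDiff_inv : ContDiff ℝ ∞ inv := by
  rw [contDiff_pi]
  intro i
  fin_cases i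
  · change ContDiff ℝ ∞ fun p : G => inv p 0
    simp only [inv_0]; fun_prop
  · change ContDiff ℝ ∞ fun p : G => inv p 1
    simp only [inv_1]; fun_prop
  · change ContDiff ℝ ∞ fun p : G => inv p 2
    simp only [inv_2]; fun_prop
  · change ContDiff ℝ ∞ fun p : G => inv p 3
    simp only [inv_3]; fun_prop
  · change ContDiff ℝ ∞ fun p : G => inv p 4
    simp only [inv_4]; fun_prop
  · change ContDiff ℝ ∞ fun p : G => inv p 5
    simp only [inv_5]; fun_prop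

/-! ### The lattice -/

/-- The polynomial attached to an element of `G`. -/
noncomputable def pol (g : G) (m : ℝ) : ℝ :=
  g 1 * m ^ 4 / 24 + g 2 * m ^ 3 / 6 + g 3 * m ^ 2 / 2 + g 4 * m + g 5

theorem mem_Lat {g : G} : g ∈ Nil.Lat ↔ (∃ n : ℤ, g 0 = n) ∧ ∀ m : ℤ, ∃ n : ℤ, pol g m = n := Iff.rfl

theorem pol_mul (g h : G) (m : ℝ) : pol (mul g h) m = pol g m + pol h (m - g 0) := by
  simp only [pol, mul_1, mul_2, mul_3, mul_4, mul_5]
  ring

theorem pol_inv (g : G) (m : ℝ) : pol (inv g) m = - pol g (m + g 0) := by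
  simp only [pol, inv_1, inv_2, inv_3, inv_4, inv_5]
  ring

theorem mul_mem_Lat {g h : G} (hg : g ∈ Nil.Lat) (hh : h ∈ Nil.Lat) : mul g h ∈ Nil.Lat := by
  rw [mem_Lat] at hg hh ⊢
  obtain ⟨⟨n, hn⟩, hg⟩ := hg
  obtain ⟨⟨k, hk⟩, hh⟩ := hh
  refine ⟨⟨n + k, by rw [mul_0, hn, hk]; push_cast; ring⟩, fun m => ?_⟩
  obtain ⟨a, ha⟩ := hg m
  obtain ⟨b, hb⟩ := hh (m - n)
  refine ⟨a + b, ?_⟩
  rw [pol_mul, ha, hn]
  push_cast at hb
  rw [hb]
  push_cast
  ring

theorem inv_mem_Lat {g : G} (hg : g ∈ Nil.Lat) : inv g ∈ Nil.Lat := by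
  rw [mem_Lat] at hg ⊢
  obtain ⟨⟨n, hn⟩, hg⟩ := hg
  refine ⟨⟨-n, by rw [inv_0, hn]; push_cast; ring⟩, fun m => ?_⟩
  obtain ⟨a, ha⟩ := hg (m + n)
  refine ⟨-a, ?_⟩
  rw [pol_inv, hn]
  push_cast at ha
  rw [ha]
  push_cast
  ring

theorem zero_mem_Lat : (0 : G) ∈ Nil.Lat := by
  rw [mem_Lat]
  refine ⟨⟨0, by simp⟩, fun m => ⟨0, by simp [pol]⟩⟩

/-- The lattice `Γ` as a subgroup of `NG`. -/
def Gam : Subgroup NG where
  carrier := Nil.Lat
  mul_mem' := mul_mem_Lat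
  one_mem' := zero_mem_Lat
  inv_mem' := inv_mem_Lat

theorem mem_Gam {g : NG} : g ∈ Gam ↔ (g : G) ∈ Nil.Lat := Iff.rfl

/-- The binomial coefficients of the polynomial attached to a lattice element are integers. -/
theorem Lat_binomial {g : G} (hg : g ∈ Nil.Lat) : ∃ c0 c1 c2 c3 c4 c5 : ℤ, g 0 = c0 ∧ g 1 = c1 ∧
    g 2 = c2 - 3 / 2 * c1 ∧ g 3 = c3 - c2 + 11 / 12 * c1 ∧
    g 4 = c4 - c3 / 2 + c2 / 3 - c1 / 4 ∧ g 5 = c5 := by
  rw [mem_Lat] at hg
  obtain ⟨⟨n, hn⟩, hg⟩ := hg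
  obtain ⟨p0, h0⟩ := hg 0
  obtain ⟨p1, h1⟩ := hg 1
  obtain ⟨p2, h2⟩ := hg 2
  obtain ⟨p3, h3⟩ := hg 3
  obtain ⟨p4, h4⟩ := hg 4
  simp only [pol] at h0 h1 h2 h3 h4
  push_cast at h0 h1 h2 h3 h4
  refine ⟨n, p4 - 4 * p3 + 6 * p2 - 4 * p1 + p0, p3 - 3 * p2 + 3 * p1 - p0, p2 - 2 * p1 + p0,
    p1 - p0, p0, hn, ?_, ?_, ?_, ?_, ?_⟩ <;> push_cast <;> linarith

theorem dvd24 (m : ℤ) : (24 : ℤ) ∣ m * (m - 1) * (m - 2) * (m - 3) := by
  have h : ∀ z : ZMod 24, z * (z - 1) * (z - 2) * (z - 3) = 0 := by decide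
  apply (ZMod.intCast_zmod_eq_zero_iff_dvd _ 24).1
  push_cast
  exact h _

theorem dvd6 (m : ℤ) : (6 : ℤ) ∣ m * (m - 1) * (m - 2) := by
  have h : ∀ z : ZMod 6, z * (z - 1) * (z - 2) = 0 := by decide
  apply (ZMod.intCast_zmod_eq_zero_iff_dvd _ 6).1
  push_cast
  exact h _

theorem dvd2 (m : ℤ) : (2 : ℤ) ∣ m * (m - 1) := by
  have h : ∀ z : ZMod 2, z * (z - 1) = 0 := by decide
  apply (ZMod.intCast_zmod_eq_zero_iff_dvd _ 2).1
  push_cast
  exact h _

/-- The lattice element with given coordinates in the basis `b_j`. -/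
noncomputable def latElt (c0 c1 c2 c3 c4 c5 : ℤ) : G :=
  ![c0, c1, c2 - 3 / 2 * c1, c3 - c2 + 11 / 12 * c1, c4 - c3 / 2 + c2 / 3 - c1 / 4, c5]

theorem latElt_mem (c0 c1 c2 c3 c4 c5 : ℤ) : latElt c0 c1 c2 c3 c4 c5 ∈ Nil.Lat := by
  rw [mem_Lat]
  refine ⟨⟨c0, rfl⟩, fun m => ?_⟩
  obtain ⟨x, hx⟩ := dvd24 m
  obtain ⟨y, hy⟩ := dvd6 m
  obtain ⟨z, hz⟩ := dvd2 m
  have hx' : ((m : ℝ)) * (m - 1) * (m - 2) * (m - 3) = 24 * x := by exact_mod_cast hx
  have hy' : ((m : ℝ)) * (m - 1) * (m - 2) = 6 * y := by exact_mod_cast hy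
  have hz' : ((m : ℝ)) * (m - 1) = 2 * z := by exact_mod_cast hz
  refine ⟨c1 * x + c2 * y + c3 * z + c4 * m + c5, ?_⟩
  simp only [pol]
  change (c1 : ℝ) * m ^ 4 / 24 + (c2 - 3 / 2 * c1) * m ^ 3 / 6
    + (c3 - c2 + 11 / 12 * c1) * m ^ 2 / 2 + (c4 - c3 / 2 + c2 / 3 - c1 / 4) * m + c5 = _
  push_cast
  linear_combination (c1 : ℝ) / 24 * hx' + (c2 : ℝ) / 6 * hy' + (c3 : ℝ) / 2 * hz'

end Pool.Agent.H61.GWNil
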