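import Pool.Agent.H61.GWNil.Top

/-!
# `V = Γ \ G` is a closed smooth manifold and `G → V` is a smooth covering map
-/

open scoped ContDiff Manifold
open MeasureTheory Topology Filter

namespace Pool.Agent.H61.GWNil

open Pool.Agent.H64.GW Pool.Agent.H64.GW.Nil

instance : SimplyConnectedSpace NG := inferInstance

instance : PathConnectedSpace V := by
  have h : PathConnectedSpace NG := inferInstance
  exact proj_surj.pathConnectedSpace continuous_proj

instance : SecondCountableTopology V :=
  ContinuousConstSMul.secondCountableTopology (Γ := Gam) (T := NG)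

instance instChartedSpaceNG : ChartedSpace G NG :=
  inferInstanceAs (ChartedSpace (Fin 6 → ℝ) (Fin 6 → ℝ))

instance instIsManifoldNG : IsManifold 𝓘(ℝ, G) ∞ NG :=
  inferInstanceAs (IsManifold 𝓘(ℝ, G) ∞ (Fin 6 → ℝ))

theorem isLocalHomeomorph : IsLocalHomeomorph proj := isCoveringMap.isLocalHomeomorph

/-- A local section of the quotient map, composed with the quotient map, is locally given by a
lattice element. -/
theorem section_eventuallyEq (b x : NG)
    (hx : proj x ∈ (isLocalHomeomorph.localInverseAt b).source) :
    ∃ γ ∈ Nil.Lat, ∀ᶠ y in 𝓝 x, isLocalHomeomorph.localInverseAt b (proj y) = mul γ y := by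
  set eb := isLocalHomeomorph.localInverseAt b with heb
  have hproj : ∀ v, v ∈ eb.source → proj (eb v) = v := fun v hv =>
    isLocalHomeomorph.apply_localInverseAt_of_mem hv
  obtain ⟨γ, hγ, hγx⟩ := proj_eq_iff.1 (hproj _ hx)
  refine ⟨γ, hγ, ?_⟩
  have h1 : ∀ᶠ y in 𝓝 x, proj y ∈ eb.source :=
    continuous_proj.continuousAt.eventually (eb.open_source.mem_nhds hx)
  have h2 : ∀ᶠ y : NG in 𝓝 x, (mul γ y : NG) ∈ eb.target := by
    have hc : Continuous fun y : NG => (mul γ y : NG) := by
      exact continuous_const_mul (M := NG) γ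
    have hm : (mul γ x : NG) ∈ eb.target := by
      have h : (mul γ x : NG) = eb (proj x) := hγx
      rw [h]
      exact eb.map_source hx
    exact hc.continuousAt.eventually (eb.open_target.mem_nhds hm)
  filter_upwards [h1, h2] with y hy1 hy2
  apply isLocalHomeomorph.injOn_localInverseAt_target (x := b) (eb.map_source hy1) hy2
  rw [hproj _ hy1]
  exact (proj_eq_iff.2 ⟨γ, hγ, rfl⟩).symm

theorem contDiffOn_transition (a b : NG) :
    ContDiffOn (E := G) (F := G) ℝ ∞ (fun y : G => ((isLocalHomeomorph.localInverseAt a).symm.trans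
      (isLocalHomeomorph.localInverseAt b)) y)
      (((isLocalHomeomorph.localInverseAt a).symm.trans
      (isLocalHomeomorph.localInverseAt b)).source : Set NG) := by
  intro x hx
  have hx' : proj x ∈ (isLocalHomeomorph.localInverseAt b).source := by
    rw [OpenPartialHomeomorph.trans_source] at hx
    have := hx.2
    rwa [Set.mem_preimage, IsLocalHomeomorph.localInverseAt_symm] at this
  obtain ⟨γ, -, h⟩ := section_eventuallyEq b x hx'
  have h1 : ContDiffAt ℝ ∞ (mul γ) x := (contDiff_mul γ).contDiffAt
  refine (h1.congr_of_eventuallyEq ?_).contDiffWithinAt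
  filter_upwards [h] with y hy
  rw [← hy, OpenPartialHomeomorph.trans_apply, IsLocalHomeomorph.localInverseAt_symm]

/-- `V` is a smooth manifold of dimension six. -/
instance instIsManifold : IsManifold 𝓘(ℝ, G) ∞ V := by
  apply isManifold_of_contDiffOn
  intro e e' he he'
  obtain ⟨q, rfl⟩ := he
  obtain ⟨q', rfl⟩ := he'
  set a : NG := Quotient.mk_surjective.hasRightInverse.choose q with ha
  set b : NG := Quotient.mk_surjective.hasRightInverse.choose q' with hb
  have h := contDiffOn_transition a b
  refine (h.congr ?_).mono ?_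
  · intro y hy
    rfl
  · intro y hy
    have hy1 := hy.1
    rw [Set.mem_preimage, OpenPartialHomeomorph.trans_source] at hy1
    obtain ⟨h1, h2⟩ := hy1
    rw [OpenPartialHomeomorph.trans_source]
    exact ⟨h1.2, h2.1⟩

/-- The quotient map from `G` to `V` is smooth. -/
theorem contMDiff_proj : ContMDiff 𝓘(ℝ, G) 𝓘(ℝ, G) ∞ proj := by
  intro x
  rw [contMDiffAt_iff]
  refine ⟨continuous_proj.continuousAt, ?_⟩
  set a : NG := Quotient.mk_surjective.hasRightInverse.choose (proj x) with ha
  have hax : proj a = proj x := Quotient.mk_surjective.hasRightInverse.choose_spec (proj x)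
  have hx' : proj x ∈ (isLocalHomeomorph.localInverseAt a).source := by
    rw [← hax]
    exact isLocalHomeomorph.apply_self_mem_localInverseAt_source
  obtain ⟨γ, -, h⟩ := section_eventuallyEq a x hx'
  have h1 : ContDiffAt ℝ ∞ (mul γ) x := (contDiff_mul γ).contDiffAt
  exact (h1.congr_of_eventuallyEq h).contDiffWithinAt

/-- The local sections of the quotient map are smooth. -/
theorem contMDiffOn_section (b : NG) : ContMDiffOn 𝓘(ℝ, G) 𝓘(ℝ, G) ∞
    (isLocalHomeomorph.localInverseAt b) (isLocalHomeomorph.localInverseAt b).source := by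
  intro v hv
  apply ContMDiffAt.contMDiffWithinAt
  rw [contMDiffAt_iff]
  refine ⟨(isLocalHomeomorph.localInverseAt b).continuousAt hv, ?_⟩
  set a : NG := Quotient.mk_surjective.hasRightInverse.choose v with ha
  have hav : proj a = v := Quotient.mk_surjective.hasRightInverse.choose_spec v
  have hx' : proj a ∈ (isLocalHomeomorph.localInverseAt b).source := by
    rw [hav]
    exact hv
  obtain ⟨γ, -, h⟩ := section_eventuallyEq b a hx'
  have h1 : ContDiffAt ℝ ∞ (mul γ) a := (contDiff_mul γ).contDiffAt
  have hva : (extChartAt 𝓘(ℝ, G) v) v = a := by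
    change isLocalHomeomorph.localInverseAt a v = a
    rw [← hav]
    exact isLocalHomeomorph.localInverseAt_apply_self
  rw [hva]
  refine (h1.congr_of_eventuallyEq ?_).contDiffWithinAt
  filter_upwards [h] with y hy
  rw [← hy]
  change isLocalHomeomorph.localInverseAt b ((isLocalHomeomorph.localInverseAt a).symm y) = _
  rw [IsLocalHomeomorph.localInverseAt_symm]

/-- The quotient map from `G` to `V` is a local diffeomorphism. -/
theorem isLocalDiffeomorph_proj : IsLocalDiffeomorph 𝓘(ℝ, G) 𝓘(ℝ, G) ∞ proj := by
  intro x
  refine ⟨{ (isLocalHomeomorph.localInverseAt x).symm.toPartialEquiv with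
    open_source := (isLocalHomeomorph.localInverseAt x).symm.open_source
    open_target := (isLocalHomeomorph.localInverseAt x).symm.open_target
    contMDiffOn_toFun := ?_
    contMDiffOn_invFun := ?_ }, ?_, ?_⟩
  · have h : ContMDiffOn 𝓘(ℝ, G) 𝓘(ℝ, G) ∞ ((isLocalHomeomorph.localInverseAt x).symm)
        (isLocalHomeomorph.localInverseAt x).symm.source := by
      rw [IsLocalHomeomorph.localInverseAt_symm]
      exact contMDiff_proj.contMDiffOn
    exact h
  · exact contMDiffOn_section x
  · exact isLocalHomeomorph.self_mem_localInverseAt_target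
  · intro y hy
    change proj y = (isLocalHomeomorph.localInverseAt x).symm y
    rw [IsLocalHomeomorph.localInverseAt_symm]

end Pool.Agent.H61.GWNil
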