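import Pool.Agent.H61.GWNil.Manifold

/-!
# Left translations of `G` preserve Lebesgue measure; the unit cube is a fundamental domain
-/

open scoped ContDiff Manifold
open MeasureTheory Topology Filter

namespace Pool.Agent.H61.GWNil

open Pool.Agent.H64.GW Pool.Agent.H64.GW.Nil

/-- The linear part of the left translation by an element with first coordinate `s`. -/
noncomputable def linPart (s : ℝ) : Matrix (Fin 6) (Fin 6) ℝ :=
  !![1, 0, 0, 0, 0, 0;
     0, 1, 0, 0, 0, 0;
     0, -s, 1, 0, 0, 0;
     0, s ^ 2 / 2, -s, 1, 0, 0;
     0, -(s ^ 3 / 6), s ^ 2 / 2, -s, 1, 0;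
     0, s ^ 4 / 24, -(s ^ 3 / 6), s ^ 2 / 2, -s, 1]

theorem det_linPart (s : ℝ) : (linPart s).det = 1 := by
  rw [Matrix.det_of_isLowerTriangular]
  · simp [Fin.prod_univ_six, linPart]
  · intro i j hij
    have h : i < j := hij
    fin_cases i <;> fin_cases j <;> first | rfl | (exfalso; revert h; decide)

theorem mul_eq_linPart (g x : G) : mul g x = Matrix.toLin' (linPart (g 0)) x + g := by
  apply ext6 <;>
  simp [linPart, Matrix.toLin'_apply, dotProduct, Fin.sum_univ_six] <;> ring

/-- Left translations preserve the Lebesgue measure of `ℝ⁶`. -/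
theorem measurePreserving_mul (g : G) : MeasurePreserving (mul g) := by
  have h1 : MeasurePreserving (Matrix.toLin' (linPart (g 0)) : G → G) := by
    refine ⟨?_, ?_⟩
    · exact (LinearMap.continuous_of_finiteDimensional _).measurable
    · have h := Real.map_matrix_volume_pi_eq_smul_volume_pi (M := linPart (g 0))
        (by rw [det_linPart]; exact one_ne_zero)
      rw [h, det_linPart]
      simp
  have h2 : MeasurePreserving (fun x : G => x + g) := measurePreserving_add_right volume g
  have h3 := h2.comp h1
  have h4 : (fun x : G => x + g) ∘ (Matrix.toLin' (linPart (g 0)) : G → G) = mul g := by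
    funext x
    rw [mul_eq_linPart]
    rfl
  rw [h4] at h3
  exact h3

instance : MeasurableSpace NG := inferInstanceAs (MeasurableSpace (Fin 6 → ℝ))
instance : BorelSpace NG := inferInstanceAs (BorelSpace (Fin 6 → ℝ))
noncomputable instance : MeasureSpace NG := inferInstanceAs (MeasureSpace (Fin 6 → ℝ))

instance : SMulInvariantMeasure Gam NG volume where
  measure_preimage_smul := by
    intro γ s hs
    exact (measurePreserving_mul γ.1).measure_preimage (μb := (volume : Measure G))
      hs.nullMeasurableSet

theorem cube_eq : cube = Set.pi Set.univ fun _ : Fin 6 => Set.Ico (0 : ℝ) 1 := by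
  ext x
  simp [cube]

/-- The half open unit cube is a fundamental domain for the action of the lattice. -/
theorem isFundamentalDomain : IsFundamentalDomain (α := NG) Gam cube := by
  refine IsFundamentalDomain.mk' ?_ ?_
  · have h : MeasurableSet cube := by
      rw [cube_eq]
      exact MeasurableSet.univ_pi fun _ => measurableSet_Ico
    exact h.nullMeasurableSet
  · intro x
    obtain ⟨γ, ⟨hγ, hx⟩, huniq⟩ := existsUnique_lat x
    refine ⟨⟨γ, hγ⟩, hx, ?_⟩
    intro δ hδ
    exact Subtype.ext (huniq δ.1 ⟨δ.2, hδ⟩)

/-- The half open and the closed unit cubes differ by a null set. -/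
theorem cube_ae_eq : cube =ᵐ[volume] Set.Icc (0 : G) 1 := by
  rw [cube_eq]
  exact Measure.univ_pi_Ico_ae_eq_Icc

end Pool.Agent.H61.GWNil
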