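import Pool.Agent.H61.GWNil.Manifold

/-!
# `V = Γ \ G` is aspherical: the homotopy groups `π_n V`, `n ≥ 2`, are trivial
-/

open scoped unitInterval Topology
open Topology.Homotopy

namespace Pool.Agent.H61.GWNil

open Pool.Agent.H64.GW Pool.Agent.H64.GW.Nil

/-- The boundary of a cube of dimension at least two is connected. -/
theorem isPreconnected_boundary (N : Type*) [Nontrivial N] :
    IsPreconnected (Cube.boundary N) := by
  classical
  have face : ∀ (k : N) (c : I), IsPreconnected {z : N → I | z k = c} := by
    intro k c
    have h : {z : N → I | z k = c} = Set.range (fun z : N → I => Function.update z k c) := by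
      ext z
      constructor
      · intro hz
        refine ⟨z, ?_⟩
        have hz' : z k = c := hz
        rw [← hz']
        exact Function.update_eq_self k z
      · rintro ⟨w, rfl⟩
        simp
    rw [h]
    exact isPreconnected_range (continuous_id.update k continuous_const)
  apply isPreconnected_of_forall (fun _ => (0 : I))
  intro y hy
  obtain ⟨i, hi⟩ := hy
  obtain ⟨j, hj⟩ := exists_ne i
  refine ⟨{z | z i = y i} ∪ {z | z j = 0}, ?_, Or.inr rfl, Or.inl rfl, ?_⟩
  · rintro z (hz | hz)
    · have hz' : z i = y i := hz
      exact ⟨i, by rw [hz']; exact hi⟩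
    · exact ⟨j, Or.inl hz⟩
  · refine IsPreconnected.union
      (Function.update (Function.update (fun _ => (0 : I)) i (y i)) j 0) ?_ ?_
      (face i (y i)) (face j 0)
    · simp [Function.update_of_ne hj.symm]
    · simp

/-- The straight line from `x` to `y`. -/
noncomputable def line (t : ℝ) (x y : G) : G := (1 - t) • x + t • y

theorem line_zero (x y : G) : line 0 x y = x := by simp [line]

theorem line_one (x y : G) : line 1 x y = y := by simp [line]

theorem line_self (t : ℝ) (x : G) : line t x x = x := by
  rw [line, ← add_smul]
  simp

/-- Every map from a cube of dimension at least two to `V` which is constant on the boundary is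
homotopic to a constant map relative to the boundary. -/
theorem genLoop_homotopic_const (N : Type*) [Nontrivial N] (v : V) (f : GenLoop N V v) :
    f.1.HomotopicRel (ContinuousMap.const _ v) (Cube.boundary N) := by
  -- extend the loop to the whole of Euclidean space and lift it
  let r : C(N → ℝ, N → I) := ⟨fun y i => Set.projIcc 0 1 zero_le_one (y i), by fun_prop⟩
  let c : C(N → I, N → ℝ) := ⟨fun y i => (y i : ℝ), by fun_prop⟩
  have hrc : ∀ y, r (c y) = y := by
    intro y
    funext i
    exact Set.projIcc_val zero_le_one (y i)
  obtain ⟨e, he⟩ := proj_surj v
  have hb0 : (fun _ => (0 : I)) ∈ Cube.boundary N := by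
    obtain ⟨i, -⟩ := exists_pair_ne N
    exact ⟨i, Or.inl rfl⟩
  have hf0 : proj e = (f.1.comp r) (c fun _ => 0) := by
    rw [ContinuousMap.comp_apply, hrc, he]
    exact (f.2 _ hb0).symm
  obtain ⟨F, ⟨hF0, hF⟩, -⟩ := isCoveringMap.existsUnique_continuousMap_lifts (f.1.comp r)
    (c fun _ => 0) e hf0
  have hFf : ∀ y : N → I, proj (F (c y)) = f.1 y := by
    intro y
    have h := congrFun hF (c y)
    rw [Function.comp_apply, ContinuousMap.comp_apply, hrc] at h
    exact h
  have hFb : ∀ y ∈ Cube.boundary N, F (c y) = e := by
    intro y hy
    have h := isCoveringMap.eqOn_of_comp_eqOn (isPreconnected_boundary N)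
      (g₁ := fun y => F (c y)) (g₂ := fun _ => e)
      ((F.continuous.comp c.continuous).continuousOn) continuousOn_const
      (fun y hy => by
        change proj (F (c y)) = proj e
        rw [hFf, he]
        exact f.2 y hy) hb0 hF0
    exact h hy
  -- the straight line homotopy
  let H : (I × (N → I)) → G := fun p => line p.1 (F (c p.2)) e
  have hH : Continuous H := by
    have h1 : Continuous (Y := G) fun p : I × (N → I) => F (c p.2) :=
      F.continuous.comp (c.continuous.comp continuous_snd)
    have h2 : Continuous fun p : I × (N → I) => (p.1 : ℝ) :=
      continuous_subtype_val.comp continuous_fst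
    exact ((continuous_const.sub h2).smul h1).add (h2.smul continuous_const)
  refine ⟨{ toFun := fun p => proj (H p)
            continuous_toFun := ?_
            map_zero_left := ?_
            map_one_left := ?_
            prop' := ?_ }⟩
  · exact continuous_proj.comp hH
  · intro y
    change proj (H (0, y)) = f.1 y
    have h : H (0, y) = F (c y) := line_zero _ _
    rw [h]
    exact hFf y
  · intro y
    change proj (H (1, y)) = v
    have h : H (1, y) = e := line_one _ _
    rw [h]
    exact he
  · intro t y hy
    change proj (H (t, y)) = f.1 y
    have h : H (t, y) = e := by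
      change line t (F (c y)) e = e
      rw [hFb y hy]
      exact line_self t e
    rw [h, he]
    exact (f.2 y hy).symm

/-- The homotopy groups of `V` in dimensions at least two are trivial. -/
theorem subsingleton_homotopyGroup (N : Type*) [Nontrivial N] (v : V) :
    Subsingleton (HomotopyGroup N V v) := by
  refine ⟨fun a b => ?_⟩
  induction a using Quotient.inductionOn with | _ f =>
  induction b using Quotient.inductionOn with | _ g =>
  apply Quotient.sound
  exact (genLoop_homotopic_const N v f).trans (genLoop_homotopic_const N v g).symm

/-- The second homotopy group of `V` is trivial. -/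
theorem subsingleton_pi_two (v : V) : Subsingleton (π_ 2 V v) :=
  subsingleton_homotopyGroup (Fin 2) v

/-- `V` is aspherical: all its homotopy groups in dimensions at least two are trivial. -/
theorem subsingleton_pi {n : ℕ} (hn : 2 ≤ n) (v : V) : Subsingleton (π_ n V v) := by
  have : Nontrivial (Fin n) := Fin.nontrivial_iff_two_le.2 hn
  exact subsingleton_homotopyGroup (Fin n) v

end Pool.Agent.H61.GWNil
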