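import Pool.Agent.H61.GWNil.Group

/-!
# The quotient `V = Γ \ G` is a compact Hausdorff space, covered by the contractible space `G`
-/

open scoped ContDiff
open MeasureTheory Topology Filter

namespace Pool.Agent.H61.GWNil

open Pool.Agent.H64.GW Pool.Agent.H64.GW.Nil

/-- An integer of absolute value less than one is zero. -/
theorem int_eq_zero {c : ℤ} (h1 : -1 < (c : ℝ)) (h2 : (c : ℝ) < 1) : c = 0 := by
  have a : -1 < c := by exact_mod_cast h1
  have b : c < 1 := by exact_mod_cast h2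
  omega

/-- The half open unit cube. -/
def cube : Set G := {y : G | ∀ i, 0 ≤ y i ∧ y i < 1}

/-- The half open unit cube is a fundamental domain of the lattice. -/
theorem existsUnique_lat (x : G) :
    ∃! γ : G, γ ∈ Nil.Lat ∧ mul γ x ∈ {y : G | ∀ i, 0 ≤ y i ∧ y i < 1} := by
  -- the coordinates, one after the other
  let c0 : ℤ := -⌊x 0⌋
  let c1 : ℤ := -⌊x 1⌋
  let y2 : ℝ := x 2 - c0 * x 1
  let y3 : ℝ := x 3 - c0 * x 2 + c0 ^ 2 / 2 * x 1
  let y4 : ℝ := x 4 - c0 * x 3 + c0 ^ 2 / 2 * x 2 - c0 ^ 3 / 6 * x 1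
  let y5 : ℝ := x 5 - c0 * x 4 + c0 ^ 2 / 2 * x 3 - c0 ^ 3 / 6 * x 2 + c0 ^ 4 / 24 * x 1
  let c2 : ℤ := -⌊y2 - 3 / 2 * c1⌋
  let c3 : ℤ := -⌊y3 - c2 + 11 / 12 * c1⌋
  let c4 : ℤ := -⌊y4 - c3 / 2 + c2 / 3 - c1 / 4⌋
  let c5 : ℤ := -⌊y5⌋
  refine ⟨latElt c0 c1 c2 c3 c4 c5, ⟨latElt_mem _ _ _ _ _ _, ?_⟩, ?_⟩
  · intro i
    fin_cases i
    · change 0 ≤ ((c0 : ℤ) : ℝ) + x 0 ∧ ((c0 : ℤ) : ℝ) + x 0 < 1
      have h1 := Int.floor_le (x 0)
      have h2 := Int.lt_floor_add_one (x 0)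
      have h : ((c0 : ℤ) : ℝ) = -(⌊x 0⌋ : ℝ) := by push_cast [c0]; ring
      constructor <;> linarith
    · change 0 ≤ ((c1 : ℤ) : ℝ) + x 1 ∧ ((c1 : ℤ) : ℝ) + x 1 < 1
      have h1 := Int.floor_le (x 1)
      have h2 := Int.lt_floor_add_one (x 1)
      have h : ((c1 : ℤ) : ℝ) = -(⌊x 1⌋ : ℝ) := by push_cast [c1]; ring
      constructor <;> linarith
    · change 0 ≤ ((c2 : ℤ) - 3 / 2 * c1 : ℝ) + y2 ∧ ((c2 : ℤ) - 3 / 2 * c1 : ℝ) + y2 < 1
      have h1 := Int.floor_le (y2 - 3 / 2 * c1)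
      have h2 := Int.lt_floor_add_one (y2 - 3 / 2 * c1)
      have h : ((c2 : ℤ) : ℝ) = -(⌊y2 - 3 / 2 * c1⌋ : ℝ) := by push_cast [c2]; ring
      constructor <;> linarith
    · change 0 ≤ ((c3 : ℤ) - c2 + 11 / 12 * c1 : ℝ) + y3 ∧
        ((c3 : ℤ) - c2 + 11 / 12 * c1 : ℝ) + y3 < 1
      have h1 := Int.floor_le (y3 - c2 + 11 / 12 * c1)
      have h2 := Int.lt_floor_add_one (y3 - c2 + 11 / 12 * c1)
      have h : ((c3 : ℤ) : ℝ) = -(⌊y3 - c2 + 11 / 12 * c1⌋ : ℝ) := by push_cast [c3]; ring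
      constructor <;> linarith
    · change 0 ≤ ((c4 : ℤ) - c3 / 2 + c2 / 3 - c1 / 4 : ℝ) + y4 ∧
        ((c4 : ℤ) - c3 / 2 + c2 / 3 - c1 / 4 : ℝ) + y4 < 1
      have h1 := Int.floor_le (y4 - c3 / 2 + c2 / 3 - c1 / 4)
      have h2 := Int.lt_floor_add_one (y4 - c3 / 2 + c2 / 3 - c1 / 4)
      have h : ((c4 : ℤ) : ℝ) = -(⌊y4 - c3 / 2 + c2 / 3 - c1 / 4⌋ : ℝ) := by
        push_cast [c4]; ring
      constructor <;> linarith
    · change 0 ≤ ((c5 : ℤ) : ℝ) + y5 ∧ ((c5 : ℤ) : ℝ) + y5 < 1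
      have h1 := Int.floor_le y5
      have h2 := Int.lt_floor_add_one y5
      have h : ((c5 : ℤ) : ℝ) = -(⌊y5⌋ : ℝ) := by push_cast [c5]; ring
      constructor <;> linarith
  · -- uniqueness
    rintro δ ⟨hδ, hx⟩
    obtain ⟨d0, d1, d2, d3, d4, d5, e0, e1, e2, e3, e4, e5⟩ := Lat_binomial hδ
    have hx0 := hx 0
    have hx1 := hx 1
    have hx2 := hx 2
    have hx3 := hx 3
    have hx4 := hx 4
    have hx5 := hx 5
    rw [mul_0] at hx0
    rw [mul_1] at hx1
    rw [mul_2] at hx2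
    rw [mul_3] at hx3
    rw [mul_4] at hx4
    rw [mul_5] at hx5
    have f0 : d0 = c0 := by
      have h : ⌊x 0⌋ = -d0 := by
        rw [Int.floor_eq_iff]; push_cast
        constructor <;> linarith [hx0.1, hx0.2]
      simp [c0, h]
    rw [e0, f0] at hx2 hx3 hx4 hx5
    have f1 : d1 = c1 := by
      have h : ⌊x 1⌋ = -d1 := by
        rw [Int.floor_eq_iff]; push_cast
        constructor <;> linarith [hx1.1, hx1.2]
      simp [c1, h]
    rw [f1] at e2 e3 e4
    have f2 : d2 = c2 := by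
      have h : ⌊y2 - 3 / 2 * c1⌋ = -d2 := by
        rw [Int.floor_eq_iff]; push_cast
        constructor <;> simp only [y2] <;> linarith [hx2.1, hx2.2]
      simp only [c2, h, neg_neg]
    rw [f2] at e3 e4
    have f3 : d3 = c3 := by
      have h : ⌊y3 - c2 + 11 / 12 * c1⌋ = -d3 := by
        rw [Int.floor_eq_iff]; push_cast
        constructor <;> simp only [y3] <;> linarith [hx3.1, hx3.2]
      simp only [c3, h, neg_neg]
    rw [f3] at e4
    have f4 : d4 = c4 := by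
      have h : ⌊y4 - c3 / 2 + c2 / 3 - c1 / 4⌋ = -d4 := by
        rw [Int.floor_eq_iff]; push_cast
        constructor <;> simp only [y4] <;> linarith [hx4.1, hx4.2]
      simp only [c4, h, neg_neg]
    have f5 : d5 = c5 := by
      have h : ⌊y5⌋ = -d5 := by
        rw [Int.floor_eq_iff]; push_cast
        constructor <;> simp only [y5] <;> linarith [hx5.1, hx5.2]
      simp only [c5, h, neg_neg]
    apply ext6
    · rw [e0, f0]; rfl
    · rw [e1, f1]; rfl
    · rw [e2, f2]; rfl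
    · rw [e3, f3]; rfl
    · rw [e4, f4]; rfl
    · rw [e5, f5]; rfl

/-! ### Proper discontinuity -/

/-- Only finitely many lattice elements lie in a compact set. -/
theorem finite_Lat_inter {K : Set G} (hK : IsCompact K) : (Nil.Lat ∩ K).Finite := by
  obtain ⟨R, hR⟩ : ∃ R : ℝ, ∀ g ∈ K, ∀ i, |g i| ≤ R := by
    obtain ⟨R, hR⟩ := hK.isBounded.exists_norm_le
    exact ⟨R, fun g hg i => (norm_le_pi_norm g i).trans (hR g hg)⟩
  obtain ⟨N, hN⟩ := exists_nat_ge (100 * R)
  have hfin : (Set.Icc (fun _ => -(N : ℤ)) (fun _ => (N : ℤ)) : Set (Fin 6 → ℤ)).Finite :=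
    Set.finite_Icc _ _
  refine (hfin.image fun c => latElt (c 0) (c 1) (c 2) (c 3) (c 4) (c 5)).subset ?_
  rintro g ⟨hg, hgK⟩
  obtain ⟨c0, c1, c2, c3, c4, c5, e0, e1, e2, e3, e4, e5⟩ := Lat_binomial hg
  have b0 := abs_le.1 (hR g hgK 0)
  have b1 := abs_le.1 (hR g hgK 1)
  have b2 := abs_le.1 (hR g hgK 2)
  have b3 := abs_le.1 (hR g hgK 3)
  have b4 := abs_le.1 (hR g hgK 4)
  have b5 := abs_le.1 (hR g hgK 5)
  have hR0 : 0 ≤ R := le_trans (abs_nonneg _) (hR g hgK 0)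
  refine ⟨![c0, c1, c2, c3, c4, c5], ?_, ?_⟩
  · have key : ∀ c : ℤ, -(100 * R) ≤ (c : ℝ) → (c : ℝ) ≤ 100 * R → -(N : ℤ) ≤ c ∧ c ≤ N := by
      intro c h1 h2
      constructor
      · have : -(N : ℝ) ≤ c := by linarith
        exact_mod_cast this
      · have : (c : ℝ) ≤ N := by linarith
        exact_mod_cast this
    have k0 := key c0 (by linarith [b0.1, b0.2]) (by linarith [b0.1, b0.2])
    have k1 := key c1 (by linarith [b1.1, b1.2]) (by linarith [b1.1, b1.2])
    have k2 := key c2 (by linarith [b1.1, b1.2, b2.1, b2.2])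
      (by linarith [b1.1, b1.2, b2.1, b2.2])
    have k3 := key c3 (by linarith [b1.1, b1.2, b2.1, b2.2, b3.1, b3.2])
      (by linarith [b1.1, b1.2, b2.1, b2.2, b3.1, b3.2])
    have k4 := key c4 (by linarith [b1.1, b1.2, b2.1, b2.2, b3.1, b3.2, b4.1, b4.2])
      (by linarith [b1.1, b1.2, b2.1, b2.2, b3.1, b3.2, b4.1, b4.2])
    have k5 := key c5 (by linarith [b5.1, b5.2]) (by linarith [b5.1, b5.2])
    constructor
    · intro i
      fin_cases i
      exacts [k0.1, k1.1, k2.1, k3.1, k4.1, k5.1]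
    · intro i
      fin_cases i
      exacts [k0.2, k1.2, k2.2, k3.2, k4.2, k5.2]
  · apply ext6
    · exact e0.symm
    · exact e1.symm
    · exact e2.symm
    · exact e3.symm
    · exact e4.symm
    · exact e5.symm

theorem tendsto_Gam : Tendsto Gam.subtype cofinite (cocompact NG) := by
  rw [Filter.tendsto_def]
  intro s hs
  rw [mem_cofinite]
  obtain ⟨K, hK, hKs⟩ := mem_cocompact.1 hs
  have h1 := finite_Lat_inter (K := (K : Set G)) hK
  have h2 : (Gam.subtype ⁻¹' s)ᶜ ⊆ Gam.subtype ⁻¹' (Nil.Lat ∩ K : Set G) := by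
    intro g hg
    refine ⟨g.2, ?_⟩
    by_contra h
    exact hg (hKs h)
  refine Set.Finite.subset (Set.Finite.preimage ?_ h1) h2
  exact Subtype.val_injective.injOn

/-- The lattice acts properly discontinuously on `G` by left translations. -/
instance instProperlyDiscontinuous : ProperlyDiscontinuousSMul Gam NG :=
  Subgroup.properlyDiscontinuousSMul_of_tendsto_cofinite Gam tendsto_Gam

/-- The lattice acts freely on `G`. -/
theorem free (γ : Gam) (x : NG) (h : γ • x = x) : γ = 1 := by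
  have h' : (γ : NG) * x = x := h
  exact Subtype.ext (mul_eq_right.1 h')

instance instIsCancelSMul : IsCancelSMul Gam NG where
  right_cancel' := by
    intro a b c h
    have h' : (a : NG) * c = (b : NG) * c := h
    exact Subtype.ext (mul_right_cancel h')

/-! ### The quotient -/

/-- The nilmanifold `V = Γ \ G`. -/
abbrev V : Type := MulAction.orbitRel.Quotient Gam NG

/-- The quotient map. -/
noncomputable def proj (x : NG) : V := Quotient.mk _ x

theorem proj_eq_iff {x y : NG} : proj x = proj y ↔ ∃ γ ∈ Nil.Lat, mul γ y = x := by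
  rw [proj, proj, Quotient.eq]
  constructor
  · rintro ⟨γ, hγ⟩
    exact ⟨γ.1, γ.2, hγ⟩
  · rintro ⟨γ, hγ, h⟩
    exact ⟨⟨γ, hγ⟩, h⟩

theorem proj_surj : Function.Surjective proj := Quotient.mk_surjective

theorem continuous_proj : Continuous proj := continuous_quotient_mk'

instance : T2Space V := by
  have h := @t2Space_of_properlyDiscontinuousSMul_of_t2Space Gam _ NG _ _ _ _ _ _
  exact h

instance : CompactSpace V := by
  have hK : IsCompact (Set.Icc (0 : G) 1) := isCompact_Icc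
  have hK' : IsCompact (proj '' (Set.Icc (0 : G) 1 : Set G)) :=
    IsCompact.image (X := NG) hK continuous_proj
  have h : proj '' (Set.Icc (0 : G) 1 : Set G) = Set.univ := by
    rw [Set.eq_univ_iff_forall]
    intro v
    obtain ⟨x, rfl⟩ := proj_surj v
    obtain ⟨γ, ⟨hγ, hx⟩, -⟩ := existsUnique_lat x
    refine ⟨mul γ x, ⟨fun i => (hx i).1, fun i => (hx i).2.le⟩, ?_⟩
    exact proj_eq_iff.2 ⟨γ, hγ, rfl⟩
  rw [h] at hK'
  exact ⟨hK'⟩

/-- The quotient map is a covering map, with the lattice as group of deck transformations. -/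
theorem isQuotientCoveringMap : IsQuotientCoveringMap proj Gam :=
  isQuotientCoveringMap_quotientMk_of_properlyDiscontinuousSMul

theorem isCoveringMap : IsCoveringMap proj := isQuotientCoveringMap.isCoveringMap

end Pool.Agent.H61.GWNil
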